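import Mathlib
import Pool.Agent.H275.CG.Defs
import Pool.Agent.H275.CG.Reduce
import Pool.Agent.H275.CG.Comm

set_option autoImplicit false

open scoped Matrix

universe u

namespace Pool.Agent.Results.MP_a554a0_an.CommutativeCase

open Pool.Agent.H275CG

/-- A commutative C*-algebra `A`, unital or not, has the property that every graph in `G(A)` is a
disjoint union of complete graphs if and only if its spectrum (the locally compact space of
characters) contains two disjoint open sigma-compact sets whose closures meet. -/
theorem result (A : Type u) [NonUnitalCommCStarAlgebra A] :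
    OnlyCliqueUnions A ↔ ∃ U V : Set (WeakDual.characterSpace ℂ A), IsOpen U ∧
        IsSigmaCompact U ∧ IsOpen V ∧ IsSigmaCompact V ∧ Disjoint U V ∧
          ¬ Disjoint (closure U) (closure V) := by
  rw [onlyCliqueUnions_iff, p3_iff_sigmaSep A mul_comm]
  unfold Pool.Agent.Helper917.SigmaSep
  push Not
  rfl

end Pool.Agent.Results.MP_a554a0_an.CommutativeCase
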