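import Mathlib
import Pool.Agent.H275.CG.Defs
import Pool.Agent.H275.CG.Reduce
import Pool.Agent.H275.CG.Sep
import Pool.Agent.H275.CG.Min
import Pool.Agent.H275.CG.Dual
import Pool.Agent.H275.CG.Fin

set_option autoImplicit false

open scoped Matrix

universe u

namespace Pool.Agent.Results.MP_a554a0_an.SeparableCase

open Pool.Agent.H275CG

/-- A separable C*-algebra `A`, unital or not, has the property that every graph in `G(A)` is a
disjoint union of complete graphs if and only if some self-adjoint element has a nonzero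
accumulation point in its spectrum (necessity holds without separability); a unital separable one
has it if and only if it is infinite-dimensional. -/
theorem result :
    (∀ (A : Type u) [NonUnitalCStarAlgebra A] [TopologicalSpace.SeparableSpace A],
      OnlyCliqueUnions A ↔ ∃ h : A, IsSelfAdjoint h ∧ ∃ μ : ℝ, μ ≠ 0 ∧
        AccPt μ (Filter.principal (quasispectrum ℝ h))) ∧
    (∀ (A : Type u) [NonUnitalCStarAlgebra A], OnlyCliqueUnions A → ∃ h : A, IsSelfAdjoint h ∧
      ∃ μ : ℝ, μ ≠ 0 ∧ AccPt μ (Filter.principal (quasispectrum ℝ h))) ∧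
    (∀ (A : Type u) [CStarAlgebra A] [TopologicalSpace.SeparableSpace A],
      OnlyCliqueUnions A ↔ ¬ FiniteDimensional ℂ A) := by
  refine ⟨fun A _ _ => ?_, fun A _ => ?_, fun A _ _ => ?_⟩
  · rw [onlyCliqueUnions_iff]
    have h1 : P3 A ↔ NoAcc A := ⟨noAcc_of_p3, p3_of_noAcc⟩
    rw [h1]
    unfold NoAcc
    push Not
    rfl
  · intro h
    rw [onlyCliqueUnions_iff] at h
    have h1 : ¬ NoAcc A := fun h' => h (p3_of_noAcc h')
    unfold NoAcc at h1
    push Not at h1
    exact h1
  · rw [onlyCliqueUnions_iff, p3_iff_finiteDimensional]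

end Pool.Agent.Results.MP_a554a0_an.SeparableCase
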