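import Mathlib
import Pool.Agent.H275.CG.Defs
import Pool.Agent.H275.CG.Reduce
import Pool.Agent.H275.CG.Unital
import Pool.Agent.H275.CG.Fin

set_option autoImplicit false

open scoped Matrix

universe u

namespace Pool.Agent.Results.MP_a554a0_an.UnitalCase

open Pool.Agent.H275CG

/-- A unital C*-algebra `A` has the property that every graph in `G(A)` is a disjoint union of
complete graphs if and only if Douglas factorization fails in `A`, and if and only if some column
of height two over `A` has no weak polar decomposition. -/
theorem result (A : Type u) [CStarAlgebra A] :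
    (OnlyCliqueUnions A ↔
      ∃ x y s : A, star x * x + star s * s = star y * y ∧ ∀ z : A, ‖z‖ ≤ 1 → x ≠ z * y) ∧
    (OnlyCliqueUnions A ↔
      ∃ x s : A, ∀ c w u v t : A, c = star w * w → c * c = star x * x + star s * s →
        star u * u + star v * v + star t * t = 1 → ¬ (x = u * c ∧ s = v * c)) := by
  constructor
  · rw [onlyCliqueUnions_iff, p3_iff_douglas]
    unfold Douglas
    push Not
    rfl
  · rw [onlyCliqueUnions_iff, p3_iff_douglas, douglas_iff_columnPolar]
    unfold ColumnPolar
    push Not
    constructor
    · rintro ⟨x, s, h⟩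
      exact ⟨x, s, fun c w u v t h1 h2 h3 h4 h5 => h c w u v t h1 h2 h4 h5 h3⟩
    · rintro ⟨x, s, h⟩
      exact ⟨x, s, fun c w u v t h1 h2 h3 h4 h5 => h c w u v t h1 h2 h5 h3 h4⟩

end Pool.Agent.Results.MP_a554a0_an.UnitalCase
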